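import Pool.Agent.helper95.FJ.SpecC

set_option autoImplicit false

open Finset

noncomputable section

namespace Pool.Agent.FJ

open Pool.Agent.FI

/-- the size data of `ZD N` -/
private theorem GCL_zd (hFFC : FFC_stmt) {N : ℕ} {z : ℤ × ℤ} (hz : z ∈ ZD N) :
    z.1 % 2 = 1 ∧ IsCoprime z.1 z.2 ∧ z.1 ^ 2 ≤ 4 * N ∧ z.2 ^ 2 ≤ 2 * N ∧ |N8 z| ≤ 2 * N ∧ (N : ℤ) ≤ |N8 z| := by
  classical
  unfold ZD at hz
  rw [mem_filter] at hz
  have h1 := (hFFC (2 * N)).2 z hz.1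
  have h2 : Fd z ∧ nn z ≤ 2 * N := by
    have h3 := hz.1
    unfold FF at h3
    rw [mem_filter] at h3
    exact h3.2
  have h4 : (nn z : ℤ) = |N8 z| := by
    unfold nn
    exact Int.natCast_natAbs _
  refine ⟨h2.1.1, hz.2.2, ?_, ?_, ?_, ?_⟩
  · have := h1.1
    push_cast at this
    linarith
  · have := h1.2
    push_cast at this
    linarith
  · rw [← h4]
    exact_mod_cast h2.2
  · rw [← h4]
    exact_mod_cast hz.2.1.le

/-- the elements of a good box are small -/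
private theorem GCL_in (hFFC : FFC_stmt) {x N R A : ℕ} (hN : 1 ≤ N) (hA : A ≤ x) (hR : 1156 * x ^ 2 ≤ R ^ 2 * N) {z : ℤ × ℤ}
    (hz : z ∈ ZD N) {w : ℤ × ℤ} (ha : 0 < ac z w) (ha' : ac z w ≤ A) (hl : (x : ℤ) < lc z w) (hl' : lc z w ≤ 2 * x) :
    w ∈ Bx R := by
  obtain ⟨-, -, hr, hs, hn, hn'⟩ := GCL_zd hFFC hz
  have hA' : (A : ℤ) ≤ x := by exact_mod_cast hA
  have hx0 : (0 : ℤ) ≤ x := by positivity
  have hN0 : (0 : ℤ) < N := by exact_mod_cast hN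
  have hR' : 1156 * (x : ℤ) ^ 2 ≤ (R : ℤ) ^ 2 * N := by exact_mod_cast hR
  have ea : (ac z w) ^ 2 ≤ (x : ℤ) ^ 2 := pow_le_pow_left₀ ha.le (by linarith) 2
  have el : (lc z w) ^ 2 ≤ 4 * (x : ℤ) ^ 2 := by
    have := pow_le_pow_left₀ (by linarith : 0 ≤ lc z w) hl' 2
    linarith [this, mul_pow (2 : ℤ) x 2]
  have e1 : N8 z * w.1 = ac z w * z.1 - 8 * (lc z w * z.2) := by
    unfold N8 ac lc
    ring
  have e2 : N8 z * w.2 = lc z w * z.1 - ac z w * z.2 := by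
    unfold N8 ac lc
    ring
  have q1 : (ac z w * z.1) ^ 2 ≤ x ^ 2 * (4 * N) := by
    rw [mul_pow]
    exact mul_le_mul ea hr (by positivity) (by positivity)
  have q2 : (lc z w * z.2) ^ 2 ≤ (4 * x ^ 2) * (2 * N) := by
    rw [mul_pow]
    exact mul_le_mul el hs (by positivity) (by positivity)
  have q3 : (lc z w * z.1) ^ 2 ≤ (4 * x ^ 2) * (4 * N) := by
    rw [mul_pow]
    exact mul_le_mul el hr (by positivity) (by positivity)
  have q4 : (ac z w * z.2) ^ 2 ≤ x ^ 2 * (2 * N) := by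
    rw [mul_pow]
    exact mul_le_mul ea hs (by positivity) (by positivity)
  have hxN : 0 ≤ (x : ℤ) ^ 2 * N := by positivity
  have key : ∀ t : ℤ, (N8 z * t) ^ 2 ≤ 1156 * (x : ℤ) ^ 2 * N → -(R : ℤ) ≤ t ∧ t ≤ R := by
    intro t ht
    have h1 : (N : ℤ) ^ 2 ≤ N8 z ^ 2 := by
      rw [← sq_abs (N8 z)]
      exact pow_le_pow_left₀ hN0.le hn' 2
    have h2 : (N : ℤ) ^ 2 * t ^ 2 ≤ (R : ℤ) ^ 2 * N ^ 2 := by
      calc (N : ℤ) ^ 2 * t ^ 2 ≤ N8 z ^ 2 * t ^ 2 := mul_le_mul_of_nonneg_right h1 (by positivity)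
        _ = (N8 z * t) ^ 2 := by ring
        _ ≤ 1156 * (x : ℤ) ^ 2 * N := ht
        _ ≤ (R : ℤ) ^ 2 * N * N := mul_le_mul_of_nonneg_right hR' hN0.le
        _ = _ := by ring
    have h3 : t ^ 2 ≤ (R : ℤ) ^ 2 := by
      have h4 : (0 : ℤ) < N ^ 2 := by positivity
      have h5 : (N : ℤ) ^ 2 * t ^ 2 ≤ (N : ℤ) ^ 2 * (R : ℤ) ^ 2 := by linarith [mul_comm ((R : ℤ) ^ 2) ((N : ℤ) ^ 2)]
      exact le_of_mul_le_mul_left h5 h4
    exact abs_le.1 (abs_le_of_sq_le_sq h3 (by positivity))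
  have k1 := key w.1 (by
    rw [e1]
    nlinarith [sq_nonneg (ac z w * z.1 + 8 * (lc z w * z.2))])
  have k2 := key w.2 (by
    rw [e2]
    nlinarith [sq_nonneg (lc z w * z.1 + ac z w * z.2)])
  unfold Bx
  rw [mem_product, mem_Icc, mem_Icc]
  exact ⟨k1, k2⟩

/-- `(lc z, lc z')` is injective -/
private theorem GCL_inj {z z' : ℤ × ℤ} (hD : dl z z' ≠ 0) {w w' : ℤ × ℤ} (h1 : lc z w = lc z w')
    (h2 : lc z' w = lc z' w') : w = w' := by
  have e1 : dl z z' * (w.1 - w'.1) = z'.1 * (lc z w - lc z w') - z.1 * (lc z' w - lc z' w') := by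
    unfold dl lc
    ring
  have e2 : dl z z' * (w.2 - w'.2) = z.2 * (lc z' w - lc z' w') - z'.2 * (lc z w - lc z w') := by
    unfold dl lc
    ring
  rw [h1, h2, sub_self, sub_self, mul_zero, mul_zero, sub_self] at e1
  rw [h1, h2, sub_self, sub_self, mul_zero, mul_zero, sub_self] at e2
  have e3 : w.1 - w'.1 = 0 := (mul_eq_zero.1 e1).resolve_left hD
  have e4 : w.2 - w'.2 = 0 := (mul_eq_zero.1 e2).resolve_left hD
  exact Prod.ext (by linarith) (by linarith)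

open scoped Classical in
/-- the good box in terms of `Ef` -/
private theorem GCL_ef {om : ℕ → ℤ × ℤ → ℤ × ℤ → ℤ} (hom : OmOK om) {x Z R : ℕ} {I₁ I₂ : Finset ℤ} (hZ : 2 ≤ Z) {M : ℝ} {lam : ℤ → ℝ}
    (hlam : LamOK x Z M lam) {z z' : ℤ × ℤ} (hz : z.1 % 2 = 1) (hz' : z'.1 % 2 = 1) (hzc : IsCoprime z.1 z.2)
    (hzc' : IsCoprime z'.1 z'.2) (hD : dl z z' ≠ 0)
    (hB : ∀ w : ℤ × ℤ, lc z w ∈ I₁ → lc z' w ∈ I₂ →
      w ∈ Bx R) (e : ℕ) (he : e = 1 ∨ e = 2) :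
    (∑ l₁ ∈ I₁, ∑ l₂ ∈ I₂, if IsCoprime l₁ ((e * (dl z z').natAbs : ℕ) : ℤ) ∧
        ((e * (dl z z').natAbs : ℕ) : ℤ) ∣ l₂ - om e z z' * l₁ then lam l₁ * lam l₂ else 0) =
      ∑ w ∈ Bx R with (lc z w ∈ I₁ ∧ lc z' w ∈ I₂) ∧
        (e : ℤ) ∣ w.1, if IsCoprime (lc z w) (dl z z') then lam (lc z w) * lam (lc z' w) else 0 := by
  obtain ⟨-, hsl⟩ := hom e he z z' hz hz' hzc hzc' hD
  have hcast : ((e * (dl z z').natAbs : ℕ) : ℤ) = e * |dl z z'| := by
    rw [Nat.cast_mul, Int.natCast_natAbs]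
  have hdv : ∀ t : ℤ, ((e * (dl z z').natAbs : ℕ) : ℤ) ∣ t ↔ (e : ℤ) * dl z z' ∣ t := by
    intro t
    rw [hcast]
    have h1 : (e : ℤ) * |dl z z'| = |(e : ℤ) * dl z z'| := by
      rw [abs_mul, Nat.abs_cast]
    rw [h1, abs_dvd]
  have hcop : ∀ l₁ l₂ : ℤ, (if IsCoprime l₁ ((e * (dl z z').natAbs : ℕ) : ℤ) then lam l₁ * lam l₂ else 0) =
      if IsCoprime l₁ (dl z z') then lam l₁ * lam l₂ else 0 := by
    intro l₁ l₂
    by_cases hl : lam l₁ = 0
    · simp [hl]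
    · have h1 := (hlam.2 l₁ hl).2.2 2 Nat.prime_two hZ
      have h2 : IsCoprime l₁ ((e * (dl z z').natAbs : ℕ) : ℤ) ↔ IsCoprime l₁ (dl z z') := by
        rw [hcast]
        have h3 : IsCoprime l₁ (e : ℤ) := by
          rcases he with h | h
          · rw [h]
            exact isCoprime_one_right
          · rw [h]
            have h4 : Odd l₁ := by
              rw [← Int.not_even_iff_odd]
              intro h5
              exact h1 (by
                have := h5.two_dvd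
                exact_mod_cast this)
            have h6 : IsCoprime l₁ 2 := by
              obtain ⟨k, hk⟩ := h4
              exact ⟨1, -k, by rw [hk]; ring⟩
            exact_mod_cast h6
        constructor
        · intro h4
          have h5 := h4.of_mul_right_right
          rcases abs_choice (dl z z') with h6 | h6
          · rwa [h6] at h5
          · rw [h6] at h5
            exact (IsCoprime.neg_right_iff _ _).1 h5
        · intro h4
          refine h3.mul_right ?_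
          rcases abs_choice (dl z z') with h6 | h6
          · rwa [h6]
          · rw [h6]
            exact (IsCoprime.neg_right_iff _ _).2 h4
      simp only [h2]
  rw [← Finset.sum_product']
  have h1 : ∀ p : ℤ × ℤ, (if IsCoprime p.1 ((e * (dl z z').natAbs : ℕ) : ℤ) ∧
      ((e * (dl z z').natAbs : ℕ) : ℤ) ∣ p.2 - om e z z' * p.1 then lam p.1 * lam p.2 else 0) =
      if (e : ℤ) * dl z z' ∣ p.2 - om e z z' * p.1 then
        (if IsCoprime p.1 (dl z z') then lam p.1 * lam p.2 else 0) else 0 := by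
    intro p
    rw [← hcop]
    by_cases ha : (e : ℤ) * dl z z' ∣ p.2 - om e z z' * p.1
    · have hb := (hdv _).2 ha
      simp only [ha, hb, and_true, if_true]
    · have hb := fun h => ha ((hdv _).1 h)
      rw [if_neg ha, if_neg fun h => hb h.2]
  rw [Finset.sum_congr rfl fun p _ => h1 p, ← Finset.sum_filter]
  symm
  refine Finset.sum_bij (fun w _ => (lc z w, lc z' w)) ?_ ?_ ?_ ?_
  · intro w hw
    rw [mem_filter] at hw
    rw [mem_filter, mem_product]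
    refine ⟨hw.2.1, ?_⟩
    obtain ⟨k, hk⟩ := hw.2.2
    refine (hsl _ _).1 ⟨k, w.2, ?_, ?_⟩
    · unfold lc
      rw [hk]
      ring
    · unfold lc
      rw [hk]
      ring
  · intro w _ w' _ h
    rw [Prod.mk.injEq] at h
    exact GCL_inj hD h.1 h.2
  · intro p hp
    rw [mem_filter, mem_product] at hp
    obtain ⟨u, v, hu, hv⟩ := (hsl p.1 p.2).2 hp.2
    have e1 : lc z ((e : ℤ) * u, v) = p.1 := by
      unfold lc
      rw [hu]
      ring
    have e2 : lc z' ((e : ℤ) * u, v) = p.2 := by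
      unfold lc
      rw [hv]
      ring
    have hb1 : lc z ((e : ℤ) * u, v) ∈ I₁ := by
      rw [e1]
      exact hp.1.1
    have hb2 : lc z' ((e : ℤ) * u, v) ∈ I₂ := by
      rw [e2]
      exact hp.1.2
    refine ⟨((e : ℤ) * u, v), ?_, ?_⟩
    · rw [mem_filter]
      exact ⟨hB _ hb1 hb2, ⟨hb1, hb2⟩, Dvd.intro _ rfl⟩
    · exact Prod.ext e1 e2
  · intro w _
    rfl


open scoped Classical in
/-- uniqueness of the pair of cells -/
private theorem GCL_cnt (hGPT : GPT_stmt) {x K₃ K₄ b : ℕ} (hx : 1 ≤ x) (hK : 1 ≤ K₃ * K₄) (m : ℤ) (l₁ l₂ : ℤ) :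
    ∑ i ∈ Ico (b * K₄) ((b + 1) * K₄), ∑ j ∈ (range (K₃ * K₄)).filter fun j : ℕ => (j : ℤ) - i = m,
      (if l₁ ∈ cl x (K₃ * K₄) i ∧ l₂ ∈ cl x (K₃ * K₄) j then (1 : ℝ) else 0) = if InC x K₃ K₄ b m l₁ l₂ then 1 else 0 := by
  obtain ⟨-, -, -, -, -, huniq, -, -⟩ := hGPT x (K₃ * K₄) hx hK
  by_cases h : InC x K₃ K₄ b m l₁ l₂
  · rw [if_pos h]
    obtain ⟨i₀, hi₀, j₀, hj₀, hm, h1, h2⟩ := h
    rw [Finset.sum_eq_single i₀, Finset.sum_eq_single j₀, if_pos ⟨h1, h2⟩]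
    · intro j _ hne
      rw [if_neg]
      exact fun h3 => hne (huniq j j₀ l₂ h3.2 h2)
    · intro h3
      exact absurd (mem_filter.2 ⟨hj₀, hm⟩) h3
    · intro i _ hne
      refine Finset.sum_eq_zero fun j _ => ?_
      rw [if_neg]
      exact fun h3 => hne (huniq i i₀ l₁ h3.1 h1)
    · intro h3
      exact absurd hi₀ h3
  · rw [if_neg h]
    refine Finset.sum_eq_zero fun i hi => Finset.sum_eq_zero fun j hj => ?_
    rw [if_neg]
    intro h3
    rw [mem_filter] at hj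
    exact h ⟨i, hi, j, hj.1, hj.2, h3.1, h3.2⟩

open scoped Classical in
/-- **GCL** -/
theorem GCL (hGPT : GPT_stmt) (hFFC : FFC_stmt) : GCL_stmt := by
  intro om hom x Z N R A K₃ K₄ hx hZ hN hR hA hK₃ hK₄ hRR M lam hlam z hz z' hz' hD b hb m hgood
  obtain ⟨hzo, hzc, -, -, -, -⟩ := GCL_zd hFFC hz
  obtain ⟨hzo', hzc', -, -, -, -⟩ := GCL_zd hFFC hz'
  have hK : 1 ≤ K₃ * K₄ := Nat.mul_pos hK₃ hK₄
  obtain ⟨-, -, -, -, -, -, hsub, -⟩ := hGPT x (K₃ * K₄) hx hK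
  let h : ℤ × ℤ → ℝ := fun w => if IsCoprime (lc z w) (dl z z') then lam (lc z w) * lam (lc z' w) else 0
  let P : ℤ × ℤ → Prop := fun w => InC x K₃ K₄ b m (lc z w) (lc z' w)
  have hlt : ∀ i ∈ Ico (b * K₄) ((b + 1) * K₄), i < K₃ * K₄ := by
    intro i hi
    rw [mem_Ico] at hi
    exact lt_of_lt_of_le hi.2 (Nat.mul_le_mul_right K₄ hb)
  have hE : ∀ e : ℕ, e = 1 ∨ e = 2 → Eg x K₃ K₄ lam b m (e * (dl z z').natAbs) (om e z z') =
      ∑ w ∈ Bx R, if P w ∧ (e : ℤ) ∣ w.1 then h w else 0 := by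
    intro e he
    have h1 : Eg x K₃ K₄ lam b m (e * (dl z z').natAbs) (om e z z') =
        ∑ i ∈ Ico (b * K₄) ((b + 1) * K₄), ∑ j ∈ (range (K₃ * K₄)).filter fun j : ℕ => (j : ℤ) - i = m,
          ∑ w ∈ Bx R, (if lc z w ∈ cl x (K₃ * K₄) i ∧ lc z' w ∈ cl x (K₃ * K₄) j then (1 : ℝ) else 0) *
            (if (e : ℤ) ∣ w.1 then h w else 0) := by
      unfold Eg
      refine Finset.sum_congr rfl fun i hi => Finset.sum_congr rfl fun j hj => ?_
      rw [mem_filter] at hj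
      have hB : ∀ w : ℤ × ℤ, lc z w ∈ cl x (K₃ * K₄) i → lc z' w ∈ cl x (K₃ * K₄) j → w ∈ Bx R := by
        intro w hw1 hw2
        have h2 := hgood w ⟨i, hi, j, hj.1, hj.2, hw1, hw2⟩
        have h3 := hsub i (hlt i hi) _ hw1
        exact GCL_in hFFC hN hA hRR hz h2.1 h2.2.1 h3.1 h3.2
      rw [GCL_ef hom hZ hlam hzo hzo' hzc hzc' hD hB e he, Finset.sum_filter]
      refine Finset.sum_congr rfl fun w _ => ?_
      by_cases hw : lc z w ∈ cl x (K₃ * K₄) i ∧ lc z' w ∈ cl x (K₃ * K₄) j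
      · by_cases hw1 : (e : ℤ) ∣ w.1
        · rw [if_pos ⟨hw, hw1⟩, if_pos hw, if_pos hw1, one_mul]
        · rw [if_neg fun h4 => hw1 h4.2, if_neg hw1, mul_zero]
      · rw [if_neg fun h4 => hw h4.1, if_neg hw, zero_mul]
    rw [h1]
    calc ∑ i ∈ Ico (b * K₄) ((b + 1) * K₄), ∑ j ∈ (range (K₃ * K₄)).filter fun j : ℕ => (j : ℤ) - i = m,
          ∑ w ∈ Bx R, (if lc z w ∈ cl x (K₃ * K₄) i ∧ lc z' w ∈ cl x (K₃ * K₄) j then (1 : ℝ) else 0) *
            (if (e : ℤ) ∣ w.1 then h w else 0)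
        = ∑ i ∈ Ico (b * K₄) ((b + 1) * K₄), ∑ w ∈ Bx R, ∑ j ∈ (range (K₃ * K₄)).filter fun j : ℕ => (j : ℤ) - i = m,
          (if lc z w ∈ cl x (K₃ * K₄) i ∧ lc z' w ∈ cl x (K₃ * K₄) j then (1 : ℝ) else 0) *
            (if (e : ℤ) ∣ w.1 then h w else 0) := Finset.sum_congr rfl fun i _ => Finset.sum_comm
      _ = ∑ w ∈ Bx R, ∑ i ∈ Ico (b * K₄) ((b + 1) * K₄), ∑ j ∈ (range (K₃ * K₄)).filter fun j : ℕ => (j : ℤ) - i = m,
          (if lc z w ∈ cl x (K₃ * K₄) i ∧ lc z' w ∈ cl x (K₃ * K₄) j then (1 : ℝ) else 0) *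
            (if (e : ℤ) ∣ w.1 then h w else 0) := Finset.sum_comm
      _ = ∑ w ∈ Bx R, (if P w then (1 : ℝ) else 0) * (if (e : ℤ) ∣ w.1 then h w else 0) := by
          refine Finset.sum_congr rfl fun w _ => ?_
          have h2 := GCL_cnt hGPT (b := b) hx hK m (lc z w) (lc z' w)
          have h3 : (if P w then (1 : ℝ) else 0) = if InC x K₃ K₄ b m (lc z w) (lc z' w) then 1 else 0 := rfl
          rw [h3, ← h2, Finset.sum_mul]
          refine Finset.sum_congr rfl fun i _ => ?_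
          rw [Finset.sum_mul]
      _ = _ := by
          refine Finset.sum_congr rfl fun w _ => ?_
          by_cases hw : P w
          · by_cases hw1 : (e : ℤ) ∣ w.1
            · rw [if_pos hw, if_pos hw1, if_pos ⟨hw, hw1⟩, one_mul]
            · rw [if_neg hw1, if_neg (fun h4 : P w ∧ (e : ℤ) ∣ w.1 => hw1 h4.2), mul_zero]
          · rw [if_neg hw, if_neg (fun h4 : P w ∧ (e : ℤ) ∣ w.1 => hw h4.1), zero_mul]
  rw [hE 1 (Or.inl rfl), hE 2 (Or.inr rfl), ← Finset.sum_sub_distrib, Finset.sum_filter]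
  refine Finset.sum_congr rfl fun w _ => ?_
  by_cases hw : P w
  · by_cases hw1 : w.1 % 2 = 1
    · have h2 : ¬ (((2 : ℕ) : ℤ) ∣ w.1) := by
        intro h2
        push_cast at h2
        omega
      rw [if_pos (⟨hw, by simp⟩ : P w ∧ ((1 : ℕ) : ℤ) ∣ w.1), if_neg (fun h3 : P w ∧ ((2 : ℕ) : ℤ) ∣ w.1 => h2 h3.2), sub_zero]
      show _ = if IsCoprime (lc z w) (dl z z') then lam (lc z w) * lam (lc z' w) else 0
      by_cases hw2 : IsCoprime (lc z w) (dl z z')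
      · rw [if_pos hw2, if_pos ⟨hw1, hw2, hw⟩]
      · rw [if_neg hw2, if_neg fun h3 => hw2 h3.2.1]
    · have h2 : (((2 : ℕ) : ℤ) ∣ w.1) := by
        push_cast
        omega
      rw [if_pos (⟨hw, by simp⟩ : P w ∧ ((1 : ℕ) : ℤ) ∣ w.1), if_pos (⟨hw, h2⟩ : P w ∧ ((2 : ℕ) : ℤ) ∣ w.1), sub_self,
        if_neg fun h3 => hw1 h3.1]
  · rw [if_neg (fun h3 : P w ∧ ((1 : ℕ) : ℤ) ∣ w.1 => hw h3.1), if_neg (fun h3 : P w ∧ ((2 : ℕ) : ℤ) ∣ w.1 => hw h3.1),
      sub_zero, if_neg fun h3 => hw h3.2.2]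

end Pool.Agent.FJ
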