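import Pool.Agent.helper95.FJ.SpecE
import Pool.Agent.helper45.FI.NUS

/-! # Row fj:NUI (MP_ad8ced_nt): rough numbers in short intervals and arithmetic progressions -/

set_option autoImplicit false

open Finset

noncomputable section

namespace Pool.Agent.FJ

open Pool.Agent.FI
open Pool.Agent.helper96.Slope (rg cg V Rough raω ra_core ra_prod)
open Pool.Agent.Lib.BrunHooley (Z)

open scoped Classical in
private theorem NUI_sum (r q u h : ℕ) (c : ℤ) :
    ∑ l ∈ Ioc (u : ℤ) (u + h) with (q : ℤ) ∣ l - c, nu r l =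
      kap r * ∑ n ∈ Ioc u (u + h), rg r n * cg q c n := by
  have h0 : Ioc (u : ℤ) (u + h) = (Ioc u (u + h)).image (fun n : ℕ => (n : ℤ)) := by
    ext l
    rw [mem_image, mem_Ioc]
    constructor
    · rintro ⟨h1, h2⟩
      exact ⟨l.toNat, mem_Ioc.2 ⟨by omega, by omega⟩, by omega⟩
    · rintro ⟨n, hn, rfl⟩
      rw [mem_Ioc] at hn
      exact ⟨by omega, by omega⟩
  rw [sum_filter, h0, sum_image (fun a _ b _ h => by exact_mod_cast h), mul_sum]
  refine sum_congr rfl fun n _ => ?_
  unfold nu rg cg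
  have h1 : (q : ℤ) ∣ (n : ℤ) - c ↔ (n : ℤ) ≡ c [ZMOD q] := by
    rw [Int.modEq_iff_dvd]
    constructor
    · intro h
      have := (dvd_neg (a := (q : ℤ))).2 h
      rwa [neg_sub] at this
    · intro h
      have := (dvd_neg (a := (q : ℤ))).2 h
      rwa [neg_sub] at this
  by_cases hc : (n : ℤ) ≡ c [ZMOD q]
  · by_cases hr : Rough r n
    · rw [if_pos (h1.2 hc), if_pos ((NUS_rough r n).2 hr), if_pos hr, if_pos hc]
      ring
    · rw [if_pos (h1.2 hc), if_neg (fun h => hr ((NUS_rough r n).1 h)), if_neg hr]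
      ring
  · rw [if_neg (fun h => hc (h1.1 h)), if_neg hc]
    ring

private theorem NUI_bound (r q s u b : ℕ) (c : ℤ) (hq : 1 ≤ q) (hqr : q ≤ Zr r) (hc : IsCoprime c (q : ℤ)) :
    |∑ l ∈ Ioc (s : ℤ) (s + u) with (q : ℤ) ∣ l - c, nu r l - u / (Nat.totient q : ℝ)| ≤
      (1 / 4 : ℝ) ^ b * u + kap r * (Zr r : ℝ) ^ (42 * (b + 1)) := by
  obtain ⟨h1, h2⟩ := ra_core b r s u q c hq hc
  have h3 := ra_prod r q hq hqr
  have hφ0 : 1 ≤ Nat.totient q := Nat.totient_pos.2 hq
  have hφ : (1 : ℝ) ≤ (Nat.totient q : ℝ) := by exact_mod_cast hφ0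
  have hV := NUS_V_pos r
  have hk := NUS_kap r
  have hkpos : 0 < kap r := by
    by_contra hcon
    push Not at hcon
    nlinarith
  set P := ∏ p ∈ Nat.primesLE (Z r), (1 - raω q p / (p : ℝ)) with hP
  have h4 : (u : ℝ) / q * P = u / (Nat.totient q : ℝ) * V r := by
    rw [← h3]
    field_simp
  have h5 : kap r * ((u : ℝ) / q * P) = u / (Nat.totient q : ℝ) := by
    rw [h4]
    calc kap r * ((u : ℝ) / (Nat.totient q : ℝ) * V r) = u / (Nat.totient q : ℝ) * (kap r * V r) := by ring
      _ = _ := by rw [hk, mul_one]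
  have h6 : (0 : ℝ) ≤ u / (Nat.totient q : ℝ) := by positivity
  have h7 : (u : ℝ) / (Nat.totient q : ℝ) ≤ u := by
    rw [div_le_iff₀ (by linarith)]
    have : (0 : ℝ) ≤ u := Nat.cast_nonneg u
    nlinarith
  have h8 : (0 : ℝ) ≤ (1 / 4 : ℝ) ^ b := by positivity
  rw [NUI_sum]
  have h1' := mul_le_mul_of_nonneg_left h1 hkpos.le
  have h2' := mul_le_mul_of_nonneg_left h2 hkpos.le
  rw [← NUS_Z] at h1' h2'
  have e1 : kap r * ((1 - (1 / 4 : ℝ) ^ b) * (u / q) * P - (Zr r : ℝ) ^ (42 * (b + 1))) =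
      (1 - (1 / 4 : ℝ) ^ b) * (kap r * ((u : ℝ) / q * P)) - kap r * (Zr r : ℝ) ^ (42 * (b + 1)) := by ring
  have e2 : kap r * ((1 + (1 / 4 : ℝ) ^ b) * (u / q) * P + (Zr r : ℝ) ^ (42 * (b + 1))) =
      (1 + (1 / 4 : ℝ) ^ b) * (kap r * ((u : ℝ) / q * P)) + kap r * (Zr r : ℝ) ^ (42 * (b + 1)) := by ring
  rw [e1, h5] at h1'
  rw [e2, h5] at h2'
  have h9 := mul_le_mul_of_nonneg_left h7 h8
  rw [abs_le]
  constructor
  · linarith
  · linarith

theorem NUI (hKAP : KAP_stmt) : NUI_stmt := by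
  intro A C₅
  obtain ⟨C, hC0, hC⟩ := hKAP
  obtain ⟨x₀, hx₀⟩ := NUS_ev (4 * (86 * C₅ * (A + 7) + A + |Real.log (2 * C)|))
  refine ⟨x₀, fun x hx r hr q hq hqr c s u hsu hu => ⟨fun hc => ?_, fun hc => ?_⟩⟩
  · obtain ⟨hx0, hL4, hLL, hK⟩ := hx₀ x hx
    set L := Real.log x with hL
    set M := Real.log L with hM
    have hL0 : 0 < L := by linarith
    have hxR : (0 : ℝ) < x := by exact_mod_cast hx0
    have hexpL : Real.exp L = x := Real.exp_log hxR
    have hexpM : Real.exp M = L := Real.exp_log hL0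
    set b : ℕ := ⌈((A : ℝ) + 5) * M⌉₊ with hb
    have hb1 : ((A : ℝ) + 5) * M ≤ b := Nat.le_ceil _
    have hb2 : (b : ℝ) < ((A : ℝ) + 5) * M + 1 := Nat.ceil_lt_add_one (by positivity)
    refine (NUI_bound r q s u b c hq hqr hc).trans ?_
    have hLA : 0 < L ^ A := by positivity
    -- first term
    have t1 : (1 / 4 : ℝ) ^ b * u ≤ u / (2 * L ^ A) := by
      have e1 : (1 / 4 : ℝ) ^ b ≤ (L ^ (A + 5))⁻¹ := by
        have e2 : (1 / 4 : ℝ) ≤ Real.exp (-1) := by
          rw [Real.exp_neg, ← one_div]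
          apply one_div_le_one_div_of_le (Real.exp_pos 1)
          have := Real.exp_one_lt_d9
          linarith
        calc (1 / 4 : ℝ) ^ b ≤ (Real.exp (-1)) ^ b := pow_le_pow_left₀ (by norm_num) e2 b
          _ = Real.exp (-(b : ℝ)) := by
            rw [← Real.exp_nat_mul]
            congr 1
            ring
          _ ≤ Real.exp (-(((A : ℝ) + 5) * M)) := Real.exp_le_exp.2 (by linarith)
          _ = (L ^ (A + 5))⁻¹ := by
            rw [Real.exp_neg]
            congr 1
            have : ((A : ℝ) + 5) * M = ((A + 5 : ℕ) : ℝ) * M := by push_cast; ring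
            rw [this, Real.exp_nat_mul, hexpM]
      calc (1 / 4 : ℝ) ^ b * u ≤ (L ^ (A + 5))⁻¹ * u :=
            mul_le_mul_of_nonneg_right e1 (Nat.cast_nonneg u)
        _ ≤ u / (2 * L ^ A) := by
            rw [inv_mul_eq_div]
            apply div_le_div_of_nonneg_left (Nat.cast_nonneg u) (by positivity)
            rw [pow_add]
            have e4 : (4 : ℝ) ≤ L ^ 5 := by
              calc (4 : ℝ) ≤ L := hL4
                _ = L ^ 1 := (pow_one L).symm
                _ ≤ L ^ 5 := pow_le_pow_right₀ (by linarith) (by norm_num)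
            nlinarith
    -- second term
    have t2 : kap r * (Zr r : ℝ) ^ (42 * (b + 1)) ≤ u / (2 * L ^ A) := by
      have hZ1 : (1 : ℝ) ≤ Zr r := by
        have : 1 ≤ Zr r := Nat.one_le_two_pow
        exact_mod_cast this
      have e1 : kap r ≤ C * Zr r := by
        refine (hC r).2.trans ?_
        apply mul_le_mul_of_nonneg_left _ hC0.le
        have := Real.log_le_sub_one_of_pos (show (0 : ℝ) < Zr r by linarith)
        linarith
      have e2 : kap r * (Zr r : ℝ) ^ (42 * (b + 1)) ≤ C * (Zr r : ℝ) ^ (42 * (b + 1) + 1) := by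
        calc kap r * (Zr r : ℝ) ^ (42 * (b + 1)) ≤ (C * Zr r) * (Zr r : ℝ) ^ (42 * (b + 1)) := by
              apply mul_le_mul_of_nonneg_right e1 (by positivity)
          _ = C * (Zr r : ℝ) ^ (42 * (b + 1) + 1) := by rw [pow_succ]; ring
      have e3 : (Zr r : ℝ) ^ (42 * (b + 1) + 1) ≤ Real.exp (86 * C₅ * (A + 7) * M ^ 2) := by
        calc (Zr r : ℝ) ^ (42 * (b + 1) + 1) ≤ (L ^ (2 * C₅)) ^ (42 * (b + 1) + 1) :=
              pow_le_pow_left₀ (by linarith) hr _
          _ = Real.exp (((2 * C₅ * (42 * (b + 1) + 1) : ℕ) : ℝ) * M) := by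
              rw [← pow_mul, Real.exp_nat_mul, hexpM]
          _ ≤ Real.exp (86 * C₅ * (A + 7) * M ^ 2) := by
              apply Real.exp_le_exp.2
              push_cast
              have f1 : (42 : ℝ) * (b + 1) + 1 ≤ 43 * ((A + 7) * M) := by
                have f2 : (b : ℝ) + 1 ≤ (A + 7) * M := by nlinarith
                have f3 : (0 : ℝ) ≤ b := Nat.cast_nonneg b
                linarith
              have f4 : (0 : ℝ) ≤ 2 * C₅ * M := by positivity
              nlinarith [mul_le_mul_of_nonneg_left f1 f4]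
      have e4 : L ^ A ≤ Real.exp (A * M ^ 2) := by
        have : L ^ A = Real.exp (A * M) := by rw [Real.exp_nat_mul, hexpM]
        rw [this]
        apply Real.exp_le_exp.2
        have f5 : (0 : ℝ) ≤ A := Nat.cast_nonneg A
        have f9 : M ≤ M ^ 2 := by nlinarith
        exact mul_le_mul_of_nonneg_left f9 f5
      have e5 : 2 * C ≤ Real.exp (|Real.log (2 * C)| * M ^ 2) := by
        have : 2 * C = Real.exp (Real.log (2 * C)) := (Real.exp_log (by positivity)).symm
        calc 2 * C = Real.exp (Real.log (2 * C)) := this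
          _ ≤ Real.exp (|Real.log (2 * C)| * M ^ 2) := by
            apply Real.exp_le_exp.2
            have f6 := le_abs_self (Real.log (2 * C))
            have f7 := abs_nonneg (Real.log (2 * C))
            have f8 : 1 ≤ M ^ 2 := one_le_pow₀ hLL
            nlinarith
      rw [le_div_iff₀ (by positivity)]
      calc kap r * (Zr r : ℝ) ^ (42 * (b + 1)) * (2 * L ^ A)
          ≤ (C * Real.exp (86 * C₅ * (A + 7) * M ^ 2)) * (2 * L ^ A) := by
            apply mul_le_mul_of_nonneg_right _ (by positivity)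
            exact e2.trans (mul_le_mul_of_nonneg_left e3 hC0.le)
        _ = Real.exp (86 * C₅ * (A + 7) * M ^ 2) * L ^ A * (2 * C) := by ring
        _ ≤ Real.exp (86 * C₅ * (A + 7) * M ^ 2) * Real.exp (A * M ^ 2) *
            Real.exp (|Real.log (2 * C)| * M ^ 2) := by
            apply mul_le_mul _ e5 (by positivity) (by positivity)
            exact mul_le_mul_of_nonneg_left e4 (Real.exp_pos _).le
        _ = Real.exp ((86 * C₅ * (A + 7) + A + |Real.log (2 * C)|) * M ^ 2) := by
            rw [← Real.exp_add, ← Real.exp_add]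
            congr 1
            ring
        _ ≤ Real.exp (L * (1 / 4)) := Real.exp_le_exp.2 (by linarith)
        _ = (x : ℝ) ^ (1 / 4 : ℝ) := by rw [Real.rpow_def_of_pos hxR]
        _ ≤ u := hu
    have e : (u : ℝ) / L ^ A = u / (2 * L ^ A) + u / (2 * L ^ A) := by
      field_simp
      ring
    rw [e]
    linarith
  · apply sum_eq_zero
    intro l hl
    rw [mem_filter] at hl
    unfold nu
    rw [if_neg]
    intro hrough
    apply hc
    rw [Int.isCoprime_iff_gcd_eq_one]
    by_contra hg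
    obtain ⟨p, hp, hpd⟩ := Nat.exists_prime_and_dvd hg
    have h1 : (p : ℤ) ∣ c := (Int.natCast_dvd_natCast.2 hpd).trans (Int.gcd_dvd_left ..)
    have h2 : (p : ℤ) ∣ (q : ℤ) := (Int.natCast_dvd_natCast.2 hpd).trans (Int.gcd_dvd_right ..)
    have h3 : p ∣ q := Int.natCast_dvd_natCast.1 h2
    have h4 : p ≤ Zr r := (Nat.le_of_dvd hq h3).trans hqr
    refine hrough p hp h4 ?_
    have h5 : (p : ℤ) ∣ l - c := h2.trans hl.2
    have := dvd_add h5 h1
    simpa using this

end Pool.Agent.FJ
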