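import Pool.Agent.helper94.FJ.SpecP

/-! # fj:PB3 (a long smooth polynomial) -/

set_option autoImplicit false

namespace Pool.Agent.FJ

open Finset ArithmeticFunction MeasureTheory
open Pool.Agent.CH (nit DPb)
open Pool.Agent.SK (tr0 Th muz sml bgf zN uu)
open Pool.Agent.helper85.BVP (tau)

private lemma PB3_find (W y : ℝ) (hW : W ≤ y) (J : ℕ) (hJ : y ≤ W * 2 ^ (J + 1)) :
    ∃ j, j < J + 1 ∧ W * 2 ^ j ≤ y ∧ y ≤ W * 2 ^ (j + 1) := by
  induction J with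
  | zero => exact ⟨0, by omega, by simpa using hW, hJ⟩
  | succ J ih =>
    rcases le_or_gt y (W * 2 ^ (J + 1)) with h | h
    · obtain ⟨j, h1, h2, h3⟩ := ih h
      exact ⟨j, by omega, h2, h3⟩
    · exact ⟨J + 1, by omega, h.le, hJ⟩

private lemma PB3_ind (H : ℝ → ℝ) (hH : Continuous H) (T : ℝ) :
    Integrable ((Set.Icc (-T) T).indicator H) :=
  (hH.integrableOn_Icc).integrable_indicator measurableSet_Icc

private lemma PB3_indint (H : ℝ → ℝ) (T : ℝ) (hT : 0 ≤ T) :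
    ∫ t, (Set.Icc (-T) T).indicator H t = ∫ t in (-T)..T, H t := by
  rw [integral_indicator measurableSet_Icc, intervalIntegral.integral_of_le (by linarith),
    integral_Icc_eq_integral_Ioc]

/-- the dyadic decomposition of the weight -/
private lemma PB3_int (W T₁ Lc Mc : ℝ) (hW : 1 ≤ W) (hLc : 0 ≤ Lc) (hMc : 0 ≤ Mc) (hT1 : 0 ≤ T₁)
    (J : ℕ) (hJ : T₁ ≤ W * 2 ^ (J + 1))
    (F H : ℝ → ℝ) (hF : Continuous F) (hH : Continuous H) (hH0 : ∀ t, 0 ≤ H t)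
    (hFH : ∀ t, W ≤ |t| → |t| ≤ T₁ → F t ≤ Lc * ((Mc / |t|) ^ 2 + |t|) * H t) :
    ∫ t in {t : ℝ | W ≤ |t| ∧ |t| ≤ T₁}, F t ≤
      Lc * (∑ j ∈ range (J + 1), (Mc / (W * 2 ^ j)) ^ 2 *
        ∫ t in (-(W * 2 ^ (j + 1)))..(W * 2 ^ (j + 1)), H t) +
      Lc * (T₁ * ∫ t in (-T₁)..T₁, H t) := by
  have hW0 : 0 < W := by linarith
  set S : Set ℝ := {t : ℝ | W ≤ |t| ∧ |t| ≤ T₁} with hS
  have hSm : MeasurableSet S := by
    apply MeasurableSet.inter
    · exact (isClosed_le continuous_const continuous_abs).measurableSet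
    · exact (isClosed_le continuous_abs continuous_const).measurableSet
  have hSsub : S ⊆ Set.Icc (-T₁) T₁ := fun t ht => abs_le.1 ht.2
  set g : ℝ → ℝ := fun t => Lc * (∑ j ∈ range (J + 1), (Mc / (W * 2 ^ j)) ^ 2 *
      (Set.Icc (-(W * 2 ^ (j + 1))) (W * 2 ^ (j + 1))).indicator H t) +
      Lc * (T₁ * (Set.Icc (-T₁) T₁).indicator H t) with hg
  have hgi1 : Integrable (fun t => Lc * (∑ j ∈ range (J + 1), (Mc / (W * 2 ^ j)) ^ 2 *
      (Set.Icc (-(W * 2 ^ (j + 1))) (W * 2 ^ (j + 1))).indicator H t)) := by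
    apply Integrable.const_mul
    apply integrable_finsetSum
    intro j _
    exact (PB3_ind H hH _).const_mul _
  have hgi2 : Integrable (fun t => Lc * (T₁ * (Set.Icc (-T₁) T₁).indicator H t)) :=
    ((PB3_ind H hH _).const_mul _).const_mul _
  have hgi : Integrable g := hgi1.add hgi2
  have hind0 : ∀ T t, 0 ≤ (Set.Icc (-T) T).indicator H t := fun T t =>
    Set.indicator_nonneg (fun t _ => hH0 t) t
  have hg0 : ∀ t, 0 ≤ g t := by
    intro t
    refine add_nonneg (mul_nonneg hLc (Finset.sum_nonneg (fun j _ => mul_nonneg ?_ (hind0 _ _))))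
      (mul_nonneg hLc (mul_nonneg hT1 (hind0 _ _)))
    positivity
  have hFg : ∀ t ∈ S, F t ≤ g t := by
    intro t ht
    refine (hFH t ht.1 ht.2).trans ?_
    obtain ⟨j, hj1, hj2, hj3⟩ := PB3_find W |t| ht.1 J (ht.2.trans hJ)
    have e1 : (Set.Icc (-T₁) T₁).indicator H t = H t :=
      Set.indicator_of_mem (hSsub ht) H
    have e2 : (Set.Icc (-(W * 2 ^ (j + 1))) (W * 2 ^ (j + 1))).indicator H t = H t :=
      Set.indicator_of_mem (Set.mem_Icc.2 (abs_le.1 hj3)) H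
    have h1 : (Mc / (W * 2 ^ j)) ^ 2 *
        (Set.Icc (-(W * 2 ^ (j + 1))) (W * 2 ^ (j + 1))).indicator H t ≤
        ∑ j ∈ range (J + 1), (Mc / (W * 2 ^ j)) ^ 2 *
        (Set.Icc (-(W * 2 ^ (j + 1))) (W * 2 ^ (j + 1))).indicator H t :=
      Finset.single_le_sum (f := fun j => (Mc / (W * 2 ^ j)) ^ 2 *
        (Set.Icc (-(W * 2 ^ (j + 1))) (W * 2 ^ (j + 1))).indicator H t)
        (fun j _ => mul_nonneg (by positivity) (hind0 _ _)) (Finset.mem_range.2 hj1)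
    rw [e2] at h1
    have h2 : (Mc / |t|) ^ 2 * H t ≤ (Mc / (W * 2 ^ j)) ^ 2 * H t := by
      refine mul_le_mul_of_nonneg_right ?_ (hH0 t)
      refine pow_le_pow_left₀ (div_nonneg hMc (abs_nonneg t)) ?_ 2
      exact div_le_div_of_nonneg_left hMc (by positivity) hj2
    have h3 : |t| * H t ≤ T₁ * H t :=
      mul_le_mul_of_nonneg_right ht.2 (hH0 t)
    have h4 : Lc * ((Mc / |t|) ^ 2 + |t|) * H t = Lc * ((Mc / |t|) ^ 2 * H t) + Lc * (|t| * H t) := by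
      ring
    rw [h4]
    simp only [hg]
    rw [e1]
    exact add_le_add (mul_le_mul_of_nonneg_left (h2.trans h1) hLc)
      (mul_le_mul_of_nonneg_left h3 hLc)
  have h1 : ∫ t in S, F t ≤ ∫ t in S, g t :=
    setIntegral_mono_on ((hF.integrableOn_Icc).mono_set hSsub) hgi.integrableOn hSm hFg
  have h2 : ∫ t in S, g t ≤ ∫ t, g t :=
    setIntegral_le_integral hgi (Filter.Eventually.of_forall hg0)
  refine (h1.trans h2).trans (le_of_eq ?_)
  simp only [hg]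
  rw [integral_add hgi1 hgi2, integral_const_mul, integral_const_mul, integral_const_mul,
    PB3_indint H T₁ hT1, integral_finsetSum]
  · congr 3
    funext j
    rw [integral_const_mul, PB3_indint H _ (by positivity)]
  · intro j _
    exact (PB3_ind H hH _).const_mul _

private lemma PB3_logpow (B : ℕ) : ∃ N₀ : ℕ, ∀ N : ℕ, N₀ ≤ N →
    Real.log N ^ B ≤ (N : ℝ) ^ (1 / 10 : ℝ) := by
  have h := isLittleO_log_rpow_rpow_atTop (B : ℝ) (show (0 : ℝ) < 1 / 10 by norm_num)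
  have h1 := (h.bound (show (0 : ℝ) < 1 by norm_num))
  have h2 := tendsto_natCast_atTop_atTop.eventually h1
  obtain ⟨N₀, h3⟩ := Filter.eventually_atTop.1 h2
  refine ⟨max N₀ 1, fun N hN => ?_⟩
  have h4 := h3 N (le_trans (le_max_left _ _) hN)
  have h5 : (1 : ℝ) ≤ N := by exact_mod_cast le_trans (le_max_right _ _) hN
  rw [one_mul, Real.rpow_natCast, Real.norm_eq_abs, Real.norm_eq_abs,
    abs_of_nonneg (pow_nonneg (Real.log_nonneg h5) B), abs_of_nonneg (by positivity)] at h4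
  exact h4

private lemma PB3_large : ∃ N₃ : ℕ, ∀ N : ℕ, N₃ ≤ N →
    1000 ≤ Real.log N ∧ (16640 : ℝ) ≤ (N : ℝ) ^ (1 / 10 : ℝ) := by
  have h1 := (Real.tendsto_log_atTop.comp tendsto_natCast_atTop_atTop).eventually
    (Filter.eventually_ge_atTop (1000 : ℝ))
  have h2 := ((tendsto_rpow_atTop (show (0 : ℝ) < 1 / 10 by norm_num)).comp
    tendsto_natCast_atTop_atTop).eventually (Filter.eventually_ge_atTop (16640 : ℝ))
  obtain ⟨N₃, h3⟩ := Filter.eventually_atTop.1 (h1.and h2)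
  exact ⟨N₃, fun N hN => h3 N hN⟩

private lemma PB3_J1 (N : ℕ) (hN : 1 ≤ N) (hL : 1000 ≤ Real.log N) :
    ((2 * Nat.log 2 N + 1 : ℕ) : ℝ) + 1 ≤ 5 * Real.log N ∧
      (N : ℝ) ^ 2 ≤ 2 ^ (2 * Nat.log 2 N + 1 + 1) := by
  constructor
  · have h1 : 2 ^ Nat.log 2 N ≤ N := Nat.pow_log_le_self 2 (by omega)
    have h2 : (2 : ℝ) ^ Nat.log 2 N ≤ N := by exact_mod_cast h1
    have h3 := Real.log_le_log (by positivity) h2
    rw [Real.log_pow] at h3
    have h4 : (1 : ℝ) / 2 ≤ Real.log 2 := by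
      have := Real.log_two_gt_d9
      linarith
    have h5 : (0 : ℝ) ≤ (Nat.log 2 N : ℝ) := Nat.cast_nonneg _
    have h6 : (Nat.log 2 N : ℝ) * (1 / 2) ≤ (Nat.log 2 N : ℝ) * Real.log 2 :=
      mul_le_mul_of_nonneg_left h4 h5
    push_cast
    linarith
  · have h1 : N < 2 ^ (Nat.log 2 N + 1) := Nat.lt_pow_succ_log_self (by norm_num) N
    have h2 : N ^ 2 ≤ (2 ^ (Nat.log 2 N + 1)) ^ 2 := Nat.pow_le_pow_left h1.le 2
    have h3 : (2 ^ (Nat.log 2 N + 1)) ^ 2 = 2 ^ (2 * Nat.log 2 N + 1 + 1) := by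
      rw [← pow_mul]
      congr 1
      ring
    rw [h3] at h2
    exact_mod_cast h2

/-- the size of one dyadic piece -/
private lemma PB3_piece (m n V LK : ℝ) (hm : 0 ≤ m) (hn : 1 ≤ n) (hV : 1 ≤ V) (hLK : 0 ≤ LK) :
    (m / V) ^ 2 * ((V * 2 + n) * n * LK) ≤ 3 * LK * (m * n) ^ 2 / V := by
  have hV0 : 0 < V := by linarith
  rw [div_pow, div_mul_eq_mul_div, div_le_div_iff₀ (by positivity) hV0]
  have h1 : (V * 2 + n) * n ≤ 3 * V * n ^ 2 := by
    have h2 : V * n ≤ V * n ^ 2 :=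
      mul_le_mul_of_nonneg_left (le_self_pow₀ hn (by norm_num)) hV0.le
    have h3 : n ^ 2 ≤ V * n ^ 2 := le_mul_of_one_le_left (by positivity) hV
    nlinarith
  have h2 : m ^ 2 * ((V * 2 + n) * n * LK) * V ≤ m ^ 2 * (3 * V * n ^ 2 * LK) * V := by
    refine mul_le_mul_of_nonneg_right (mul_le_mul_of_nonneg_left
      (mul_le_mul_of_nonneg_right h1 hLK) (by positivity)) hV0.le
  refine h2.trans (le_of_eq ?_)
  ring

theorem PB3 : PB3_stmt := by
  intro ε hε hε1 K c A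
  refine ⟨A + 2 * c + K + 3, fun B₁ hB₁ => ?_⟩
  obtain ⟨N₂, hN₂⟩ := PB3_logpow B₁
  obtain ⟨N₃, hN₃⟩ := PB3_large
  refine ⟨max 1 (max N₂ N₃), ?_⟩
  intro N hN m n p Q hp hQ hm hn hmn hmN hpb hQb
  have hN1 : 1 ≤ N := le_trans (le_max_left _ _) hN
  have hNN2 : N₂ ≤ N := le_trans (le_trans (le_max_left _ _) (le_max_right _ _)) hN
  have hNN3 : N₃ ≤ N := le_trans (le_trans (le_max_right _ _) (le_max_right _ _)) hN
  obtain ⟨hL, hx⟩ := hN₃ N hNN3
  have hWx := hN₂ N hNN2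
  set L := Real.log N with hLdef
  set x := (N : ℝ) ^ (1 / 10 : ℝ) with hxdef
  have hN0 : (0 : ℝ) ≤ N := Nat.cast_nonneg N
  have hNr1 : (1 : ℝ) ≤ N := by exact_mod_cast hN1
  have hx1 : (1 : ℝ) ≤ x := by linarith
  have hx0 : (0 : ℝ) < x := by linarith
  have hL1 : (1 : ℝ) ≤ L := by linarith
  have hL0 : (0 : ℝ) < L := by linarith
  have hxN : x ^ 10 = N := by
    rw [hxdef, ← Real.rpow_natCast, ← Real.rpow_mul hN0]
    norm_num
  have hx14 : (N : ℝ) ^ (14 / 10 : ℝ) = x ^ 14 := by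
    rw [hxdef, ← Real.rpow_natCast, ← Real.rpow_mul hN0]
    norm_num
  set T₁ : ℝ := (N : ℝ) ^ (2 - 4 * ε) with hT₁
  have hT₁1 : 1 ≤ T₁ := Real.one_le_rpow hNr1 (by linarith)
  have hT₁2 : T₁ ≤ x ^ 20 := by
    have h1 : T₁ ≤ (N : ℝ) ^ (2 : ℝ) := Real.rpow_le_rpow_of_exponent_le hNr1 (by linarith)
    refine h1.trans (le_of_eq ?_)
    rw [Real.rpow_two, ← hxN, ← pow_mul]
  set W := L ^ B₁ with hW
  have hW1 : 1 ≤ W := one_le_pow₀ hL1
  have hW0 : 0 < W := by linarith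
  set LK := L ^ K with hLK
  have hLK0 : 0 < LK := by positivity
  set Lc := 2 * (L ^ c) ^ 2 with hLc
  have hLc0 : 0 < Lc := by positivity
  have hmr : (1 : ℝ) ≤ m := by exact_mod_cast hm
  have hnr : (1 : ℝ) ≤ n := by exact_mod_cast hn
  have hmn' : (m : ℝ) * n ≤ 64 * x ^ 30 := by
    have h2 : ((m * n : ℕ) : ℝ) ≤ ((64 * N ^ 3 : ℕ) : ℝ) := Nat.cast_le.2 hmn
    push_cast at h2
    refine h2.trans (le_of_eq ?_)
    rw [← hxN, ← pow_mul]
  rw [hx14] at hmN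
  have hn16 : (n : ℝ) ≤ 64 * x ^ 16 := by
    have h2 : x ^ 14 * n ≤ x ^ 14 * (64 * x ^ 16) := by
      have h3 : x ^ 14 * n ≤ m * n := mul_le_mul_of_nonneg_right hmN (by linarith)
      have h4 : x ^ 14 * (64 * x ^ 16) = 64 * x ^ 30 := by ring
      rw [h4]
      exact h3.trans hmn'
    exact le_of_mul_le_mul_left h2 (by positivity)
  obtain ⟨hJ1, hJ2⟩ := PB3_J1 N hN1 hL
  have hTJ : T₁ ≤ W * 2 ^ (2 * Nat.log 2 N + 1 + 1) := by
    have h2 : T₁ ≤ (N : ℝ) ^ 2 := by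
      refine hT₁2.trans (le_of_eq ?_)
      rw [← hxN, ← pow_mul]
    refine h2.trans (hJ2.trans ?_)
    exact le_mul_of_one_le_left (by positivity) hW1
  have hset : T2s ε B₁ N = {t : ℝ | W ≤ |t| ∧ |t| ≤ T₁} := rfl
  rw [hset]
  have hint := PB3_int W T₁ Lc m hW1 hLc0.le (Nat.cast_nonneg _) (by linarith)
    (2 * Nat.log 2 N + 1) hTJ (fun t => ‖p t * Q t‖ ^ 2) (fun t => ‖Q t‖ ^ 2)
    ((hp.mul hQ).norm.pow 2) (hQ.norm.pow 2) (fun t => by positivity) (by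
      intro t ht1 _
      have h2 := hpb t (hW1.trans ht1)
      have h3 : ‖p t‖ ^ 2 ≤ Lc * ((m / |t|) ^ 2 + |t|) := by
        have h4 : ‖p t‖ ^ 2 ≤ (L ^ c * (m / |t| + √|t|)) ^ 2 := pow_le_pow_left₀ (norm_nonneg _) h2 2
        refine h4.trans ?_
        have h5 : (√|t|) ^ 2 = |t| := Real.sq_sqrt (abs_nonneg t)
        have h6 : 0 ≤ ((m : ℝ) / |t| - √|t|) ^ 2 := sq_nonneg _
        have h7 : ((m : ℝ) / |t| + √|t|) ^ 2 ≤ 2 * (((m : ℝ) / |t|) ^ 2 + |t|) := by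
          have h8 : ((m : ℝ) / |t| + √|t|) ^ 2 =
              2 * (((m : ℝ) / |t|) ^ 2 + (√|t|) ^ 2) - ((m : ℝ) / |t| - √|t|) ^ 2 := by ring
          rw [h8, h5]
          linarith
        rw [mul_pow]
        have h9 := mul_le_mul_of_nonneg_left h7 (show (0 : ℝ) ≤ (L ^ c) ^ 2 by positivity)
        refine h9.trans (le_of_eq ?_)
        rw [hLc]
        ring
      rw [norm_mul, mul_pow]
      exact mul_le_mul_of_nonneg_right h3 (by positivity))
  refine hint.trans ?_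
  -- the first part
  have hfirst : ∑ j ∈ range (2 * Nat.log 2 N + 1 + 1), ((m : ℝ) / (W * 2 ^ j)) ^ 2 *
      ∫ t in (-(W * 2 ^ (j + 1)))..(W * 2 ^ (j + 1)), ‖Q t‖ ^ 2 ≤
        5 * L * (3 * LK * ((m : ℝ) * n) ^ 2 / W) := by
    have h2 : ∀ j ∈ range (2 * Nat.log 2 N + 1 + 1), ((m : ℝ) / (W * 2 ^ j)) ^ 2 *
        ∫ t in (-(W * 2 ^ (j + 1)))..(W * 2 ^ (j + 1)), ‖Q t‖ ^ 2 ≤
          3 * LK * ((m : ℝ) * n) ^ 2 / W := by
      intro j _
      have h3 : W ≤ W * 2 ^ (j + 1) := le_mul_of_one_le_right hW0.le (one_le_pow₀ (by norm_num))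
      have h3' : W ≤ W * 2 ^ j := le_mul_of_one_le_right hW0.le (one_le_pow₀ (by norm_num))
      have h4 := hQb (W * 2 ^ (j + 1)) (hW1.trans h3)
      have h5 := mul_le_mul_of_nonneg_left h4
        (show (0 : ℝ) ≤ ((m : ℝ) / (W * 2 ^ j)) ^ 2 by positivity)
      have h6 := PB3_piece m n (W * 2 ^ j) LK (by linarith) hnr (hW1.trans h3') hLK0.le
      have h7 : W * 2 ^ (j + 1) = W * 2 ^ j * 2 := by rw [pow_succ, mul_assoc]
      rw [h7] at h5
      rw [h7]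
      refine h5.trans (h6.trans ?_)
      exact div_le_div_of_nonneg_left (by positivity) hW0 h3'
    have h3 := Finset.sum_le_card_nsmul _ _ _ h2
    rw [Finset.card_range, nsmul_eq_mul] at h3
    refine h3.trans (mul_le_mul_of_nonneg_right ?_ (by positivity))
    push_cast at hJ1 ⊢
    exact hJ1
  -- the second part
  have hsecond : T₁ * ∫ t in (-T₁)..T₁, ‖Q t‖ ^ 2 ≤ 4160 * x ^ 56 * LK := by
    have h2 := mul_le_mul_of_nonneg_left (hQb T₁ hT₁1) (show (0 : ℝ) ≤ T₁ by linarith)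
    refine h2.trans ?_
    have h3 : T₁ + n ≤ 65 * x ^ 20 := by
      have h4 : x ^ 16 ≤ x ^ 20 := pow_le_pow_right₀ hx1 (by norm_num)
      linarith
    have h5 : T₁ * ((T₁ + n) * n * LK) ≤ x ^ 20 * ((65 * x ^ 20) * (64 * x ^ 16) * LK) := by
      refine mul_le_mul hT₁2 ?_ (by positivity) (by positivity)
      refine mul_le_mul_of_nonneg_right ?_ hLK0.le
      exact mul_le_mul h3 hn16 (by linarith) (by positivity)
    refine h5.trans (le_of_eq ?_)
    ring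
  -- conclusion
  have hN6 : (N : ℝ) ^ 6 = x ^ 60 := by
    rw [← hxN, ← pow_mul]
  have hLA0 : 0 < L ^ A := by positivity
  have hmn2 : ((m : ℝ) * n) ^ 2 ≤ 4096 * x ^ 60 := by
    have h2 : ((m : ℝ) * n) ^ 2 ≤ (64 * x ^ 30) ^ 2 := pow_le_pow_left₀ (by positivity) hmn' 2
    refine h2.trans (le_of_eq ?_)
    ring
  have hconc1 : Lc * (5 * L * (3 * LK * ((m : ℝ) * n) ^ 2 / W)) ≤ (N : ℝ) ^ 6 / L ^ A / 2 := by
    rw [hN6]
    have h2 : Lc * (5 * L * (3 * LK * ((m : ℝ) * n) ^ 2 / W)) ≤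
        Lc * (5 * L * (3 * LK * (4096 * x ^ 60) / W)) := by
      gcongr
    refine h2.trans ?_
    have h3 : 245760 * (L ^ A * (L ^ c) ^ 2 * LK * L) ≤ W := by
      have h4 : W = L ^ (B₁ - (A + c * 2 + K + 1)) * (L ^ A * (L ^ c) ^ 2 * LK * L) := by
        rw [hW, hLK, ← pow_mul, ← pow_add, ← pow_add, ← pow_succ, ← pow_add]
        congr 1
        omega
      rw [h4]
      refine mul_le_mul_of_nonneg_right ?_ (by positivity)
      have h5 : L ^ 2 ≤ L ^ (B₁ - (A + c * 2 + K + 1)) := pow_le_pow_right₀ hL1 (by omega)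
      nlinarith
    rw [div_div, le_div_iff₀ (by positivity)]
    have h4 : Lc * (5 * L * (3 * LK * (4096 * x ^ 60) / W)) * (L ^ A * 2) =
        x ^ 60 * (245760 * (L ^ A * (L ^ c) ^ 2 * LK * L) / W) := by
      rw [hLc]
      ring
    rw [h4]
    have h5 : 245760 * (L ^ A * (L ^ c) ^ 2 * LK * L) / W ≤ 1 := (div_le_one hW0).2 h3
    have h6 : 0 ≤ x ^ 60 := by positivity
    nlinarith
  have hconc2 : Lc * (4160 * x ^ 56 * LK) ≤ (N : ℝ) ^ 6 / L ^ A / 2 := by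
    rw [hN6]
    have h3 : 16640 * (L ^ A * (L ^ c) ^ 2 * LK) ≤ x ^ 4 := by
      have h4 : L ^ A * (L ^ c) ^ 2 * LK ≤ x := by
        refine le_trans ?_ hWx
        rw [hW, hLK, ← pow_mul, ← pow_add, ← pow_add]
        exact pow_le_pow_right₀ hL1 (by omega)
      have h5 : x ^ 2 ≤ x ^ 4 := pow_le_pow_right₀ hx1 (by norm_num)
      have h6 : 16640 * x ≤ x ^ 2 := by nlinarith
      linarith
    rw [div_div, le_div_iff₀ (by positivity)]
    have h4 : Lc * (4160 * x ^ 56 * LK) * (L ^ A * 2) =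
        x ^ 56 * (16640 * (L ^ A * (L ^ c) ^ 2 * LK)) := by
      rw [hLc]
      ring
    have h5 : x ^ 60 = x ^ 56 * x ^ 4 := by rw [← pow_add]
    rw [h4, h5]
    exact mul_le_mul_of_nonneg_left h3 (by positivity)
  have h2 := mul_le_mul_of_nonneg_left hfirst hLc0.le
  have h3 := mul_le_mul_of_nonneg_left hsecond hLc0.le
  have h4 : (N : ℝ) ^ 6 / L ^ A = (N : ℝ) ^ 6 / L ^ A / 2 + (N : ℝ) ^ 6 / L ^ A / 2 := by ring
  rw [h4]
  exact add_le_add (h2.trans hconc1) (h3.trans hconc2)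

end Pool.Agent.FJ
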