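import Pool.Agent.helper95.FJ.SpecC

/-!
# Project fj (MP_ad8ced_nt), row WBN: the decomposition of the dispersion sum
-/

set_option autoImplicit false

open Finset

noncomputable section

namespace Pool.Agent.FJ

open Pool.Agent.FI

private theorem WBN_cardprod {α β : Type} (S : Finset α) (B : Finset β) (P : α × β → Prop)
    [DecidablePred P] : (#{t ∈ S ×ˢ B | P t} : ℝ) = ∑ a ∈ S, (#{b ∈ B | P (a, b)} : ℝ) := by
  rw [card_filter]
  push_cast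
  rw [sum_product]
  refine sum_congr rfl fun a _ => ?_
  rw [card_filter]
  push_cast
  rfl

/-- the sum over the `w` for one pair -/
private def WBN_T (R A : ℕ) (lam : ℤ → ℝ) (z z' : ℤ × ℤ) : ℝ :=
  ∑ w ∈ Bx R with w.1 % 2 = 1, lam (lc z w) * lam (lc z' w) * ga A (ac z w) * ga A (ac z' w)

private theorem WBN_ga (A : ℕ) (a : ℤ) : 0 ≤ ga A a ∧ ga A a ≤ 1 := by
  unfold ga
  split_ifs <;> norm_num

private theorem WBN_gaA (A : ℕ) (a : ℤ) (h : ga A a ≠ 0) : |a| ≤ A := by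
  unfold ga at h
  by_cases h1 : 0 < a ∧ a ≤ A
  · rw [abs_of_pos h1.1]
    exact h1.2
  · rw [if_neg h1] at h
    exact absurd rfl h

private theorem WBN_term (A : ℕ) (M : ℝ) (lam : ℤ → ℝ) (hlam : ∀ l, |lam l| ≤ M) (l l' a a' : ℤ) :
    |lam l * lam l' * ga A a * ga A a'| ≤ M ^ 2 := by
  have hM : 0 ≤ M := (abs_nonneg _).trans (hlam 0)
  rw [abs_mul, abs_mul, abs_mul, abs_of_nonneg (WBN_ga A a).1, abs_of_nonneg (WBN_ga A a').1]
  calc |lam l| * |lam l'| * ga A a * ga A a' ≤ M * M * 1 * 1 := by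
        have h1 := (WBN_ga A a)
        have h2 := (WBN_ga A a')
        have h3 : |lam l| * |lam l'| ≤ M * M := mul_le_mul (hlam l) (hlam l') (abs_nonneg _) hM
        have h4 : |lam l| * |lam l'| * ga A a ≤ M * M * 1 := mul_le_mul h3 h1.2 h1.1 (by positivity)
        exact mul_le_mul h4 h2.2 h2.1 (by positivity)
    _ = M ^ 2 := by ring

open scoped Classical in
private theorem WBN_T_triv (R A : ℕ) (M : ℝ) (lam : ℤ → ℝ) (hlam : ∀ l, |lam l| ≤ M)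
    (z z' : ℤ × ℤ) : |WBN_T R A lam z z'| ≤ M ^ 2 * (#{w ∈ Bx R | |ac z w| ≤ A} : ℝ) := by
  unfold WBN_T
  refine (abs_sum_le_sum_abs _ _).trans ?_
  calc ∑ w ∈ Bx R with w.1 % 2 = 1, |lam (lc z w) * lam (lc z' w) * ga A (ac z w) * ga A (ac z' w)|
      ≤ ∑ w ∈ Bx R, |lam (lc z w) * lam (lc z' w) * ga A (ac z w) * ga A (ac z' w)| :=
        sum_le_sum_of_subset_of_nonneg (filter_subset _ _) fun _ _ _ => abs_nonneg _
    _ ≤ ∑ w ∈ Bx R, (if |ac z w| ≤ A then M ^ 2 else 0) := by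
        refine sum_le_sum fun w _ => ?_
        split_ifs with h1
        · exact WBN_term A M lam hlam _ _ _ _
        · have h2 : ga A (ac z w) = 0 := by
            by_contra h3
            exact h1 (WBN_gaA A _ h3)
          rw [h2, mul_zero, zero_mul, abs_zero]
    _ = M ^ 2 * (#{w ∈ Bx R | |ac z w| ≤ A} : ℝ) := by
        rw [← sum_filter, sum_const, nsmul_eq_mul, mul_comm]

private theorem WBN_WW (N R A : ℕ) (β : ℤ × ℤ → ℝ) (lam : ℤ → ℝ) (Mβ : ℝ) (hβ : ∀ z, |β z| ≤ Mβ) :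
    WW N R A β lam ≤ Mβ ^ 2 * ∑ p ∈ ZD N ×ˢ ZD N, |WBN_T R A lam p.1 p.2| := by
  have hM : 0 ≤ Mβ := (abs_nonneg _).trans (hβ (0, 0))
  have h1 : WW N R A β lam = ∑ p ∈ ZD N ×ˢ ZD N, β p.1 * β p.2 * WBN_T R A lam p.1 p.2 := by
    unfold WW WBN_T
    simp_rw [mul_sum]
    rw [sum_comm]
    refine sum_congr rfl fun w _ => ?_
    rw [sq, sum_mul_sum, sum_product]
    refine sum_congr rfl fun z _ => sum_congr rfl fun z' _ => ?_
    ring
  rw [h1, mul_sum]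
  refine sum_le_sum fun p _ => ?_
  refine (le_abs_self _).trans ?_
  rw [abs_mul, abs_mul]
  apply mul_le_mul_of_nonneg_right _ (abs_nonneg _)
  calc |β p.1| * |β p.2| ≤ Mβ * Mβ := mul_le_mul (hβ _) (hβ _) (abs_nonneg _) hM
    _ = Mβ ^ 2 := by ring

/-- a common prime divisor divides the second coordinate as well -/
private theorem WBN_dvd (z z' w : ℤ × ℤ) (g : ℤ) (hz : IsCoprime z.1 z.2) (h1 : g ∣ lc z w)
    (h2 : g ∣ dl z z') : g ∣ lc z' w := by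
  obtain ⟨a, ha⟩ := h1
  obtain ⟨b, hb⟩ := h2
  obtain ⟨p, q, hpq⟩ := hz
  unfold lc at ha ⊢
  unfold dl at hb
  refine ⟨p * (z'.1 * a - w.1 * b) + q * (z'.2 * a + w.2 * b), ?_⟩
  linear_combination (-(z'.1 * w.2 + z'.2 * w.1)) * hpq + (p * z'.1 + q * z'.2) * ha +
    (q * w.2 - p * w.1) * hb

open scoped Classical in
private theorem WBN_split (x Z R A : ℕ) (M : ℝ) (lam : ℤ → ℝ) (hlam : LamOK x Z M lam)
    (z z' : ℤ × ℤ) (hz : IsCoprime z.1 z.2) :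
    |WBN_T R A lam z z'| ≤ |Tc R A lam z z'| + M ^ 2 *
      (#{w ∈ Bx R | w.1 % 2 = 1 ∧ (x : ℤ) < lc z w ∧ lc z w ≤ 2 * x ∧ |ac z w| ≤ A ∧ |ac z' w| ≤ A ∧
        ∃ g : ℕ, g.Prime ∧ Z < g ∧ (g : ℤ) ∣ lc z w ∧ (g : ℤ) ∣ lc z' w} : ℝ) := by
  set F : ℤ × ℤ → ℝ := fun w => lam (lc z w) * lam (lc z' w) * ga A (ac z w) * ga A (ac z' w) with hF
  have h1 : WBN_T R A lam z z' = Tc R A lam z z' +
      ∑ w ∈ Bx R with w.1 % 2 = 1 ∧ ¬ IsCoprime (lc z w) (dl z z'), F w := by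
    unfold WBN_T Tc
    rw [← filter_filter, ← filter_filter, sum_filter_add_sum_filter_not]
  rw [h1]
  refine (abs_add_le _ _).trans (add_le_add le_rfl ?_)
  refine (abs_sum_le_sum_abs _ _).trans ?_
  have h2 : ∑ w ∈ Bx R with w.1 % 2 = 1 ∧ ¬ IsCoprime (lc z w) (dl z z'), |F w| ≤
      ∑ w ∈ Bx R with w.1 % 2 = 1 ∧ (x : ℤ) < lc z w ∧ lc z w ≤ 2 * x ∧ |ac z w| ≤ A ∧ |ac z' w| ≤ A ∧
        ∃ g : ℕ, g.Prime ∧ Z < g ∧ (g : ℤ) ∣ lc z w ∧ (g : ℤ) ∣ lc z' w, |F w| := by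
    have h3 : ∀ w ∈ (Bx R).filter fun w => w.1 % 2 = 1 ∧ ¬ IsCoprime (lc z w) (dl z z'), |F w| ≠ 0 →
        w ∈ (Bx R).filter fun w => w.1 % 2 = 1 ∧ (x : ℤ) < lc z w ∧ lc z w ≤ 2 * x ∧ |ac z w| ≤ A ∧ |ac z' w| ≤ A ∧
          ∃ g : ℕ, g.Prime ∧ Z < g ∧ (g : ℤ) ∣ lc z w ∧ (g : ℤ) ∣ lc z' w := by
      intro w hw hne
      rw [mem_filter] at hw ⊢
      obtain ⟨hwB, hodd, hcop⟩ := hw
      have hl : lam (lc z w) ≠ 0 := by
        intro h0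
        apply hne
        rw [hF]
        simp only
        rw [h0, zero_mul, zero_mul, zero_mul, abs_zero]
      obtain ⟨h4, h5, h6⟩ := hlam.2 _ hl
      have hga1 : |ac z w| ≤ A := by
        apply WBN_gaA
        intro h0
        apply hne
        rw [hF]
        simp only
        rw [h0, mul_zero, zero_mul, abs_zero]
      have hga2 : |ac z' w| ≤ A := by
        apply WBN_gaA
        intro h0
        apply hne
        rw [hF]
        simp only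
        rw [h0, mul_zero, abs_zero]
      refine ⟨hwB, hodd, h4, h5, hga1, hga2, ?_⟩
      rw [Int.isCoprime_iff_gcd_eq_one] at hcop
      obtain ⟨g, hg, hgd⟩ := Nat.exists_prime_and_dvd hcop
      have hg1 : (g : ℤ) ∣ lc z w := (Int.natCast_dvd_natCast.mpr hgd).trans (Int.gcd_dvd_left _ _)
      have hg2 : (g : ℤ) ∣ dl z z' := (Int.natCast_dvd_natCast.mpr hgd).trans (Int.gcd_dvd_right _ _)
      refine ⟨g, hg, ?_, hg1, WBN_dvd z z' w g hz hg1 hg2⟩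
      by_contra hgZ
      exact h6 g hg (by omega) hg1
    rw [← sum_filter_ne_zero]
    refine sum_le_sum_of_subset_of_nonneg ?_ (fun _ _ _ => abs_nonneg _)
    intro w hw
    rw [mem_filter] at hw
    exact h3 w hw.1 hw.2
  refine h2.trans ?_
  calc _ ≤ ∑ w ∈ Bx R with w.1 % 2 = 1 ∧ (x : ℤ) < lc z w ∧ lc z w ≤ 2 * x ∧ |ac z w| ≤ A ∧ |ac z' w| ≤ A ∧
        ∃ g : ℕ, g.Prime ∧ Z < g ∧ (g : ℤ) ∣ lc z w ∧ (g : ℤ) ∣ lc z' w, M ^ 2 :=
        sum_le_sum fun w _ => WBN_term A M lam hlam.1 _ _ _ _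
    _ = _ := by rw [sum_const, nsmul_eq_mul, mul_comm]

open scoped Classical in
private theorem WBN_ZDcop (N : ℕ) (z : ℤ × ℤ) (hz : z ∈ ZD N) : IsCoprime z.1 z.2 := by
  unfold ZD at hz
  exact (mem_filter.mp hz).2.2

open scoped Classical in
theorem WBN (hPSM : PSM_stmt) (hCPN : CPN_stmt) (hBDN : BDN_stmt) (hWPN : WPN_stmt) (hFFC : FFC_stmt) : WBN_stmt := by
  obtain ⟨C₁, hC₁, h1⟩ := hPSM
  obtain ⟨C₂, hC₂, h2⟩ := hCPN
  obtain ⟨C₃, hC₃, h3⟩ := hBDN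
  refine ⟨C₁ + C₂ + C₃ + 1, by positivity, ?_⟩
  intro om hom x Z N R A K₁ K₃ K₄ hsiz hZ hK₁ hK₃ hK₄ hK M Mβ lam β hlam hβ
  have hM : 0 ≤ M := (abs_nonneg _).trans (hlam.1 0)
  have hlogx : 0 ≤ Real.log x := Real.log_natCast_nonneg x
  have hp1 := h1 x N R A K₁ hsiz hK₁
  have hp2 := h2 x N R A Z hsiz (by omega)
  have hp3 := h3 x N R A K₃ hsiz (by omega)
  obtain ⟨hx, hN, hR, hA, hAx, hRx, -, -, -⟩ := hsiz
  set Ee : (ℤ × ℤ) × (ℤ × ℤ) → ℝ := fun p => ∑ b ∈ range K₃, ∑ m ∈ Mz x (K₃ * K₄) A p.1 p.2,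
    ∑ e ∈ ({1, 2} : Finset ℕ), |Eg x K₃ K₄ lam b m (e * (dl p.1 p.2).natAbs) (om e p.1 p.2)| with hEe
  have hEe0 : ∀ p, 0 ≤ Ee p := fun p => by
    rw [hEe]
    exact sum_nonneg fun _ _ => sum_nonneg fun _ _ => sum_nonneg fun _ _ => abs_nonneg _
  set E : ℝ := ∑ p ∈ Pr x N A K₁, Ee p with hE
  have hE0 : 0 ≤ E := sum_nonneg fun p _ => hEe0 p
  set a : ℝ := M ^ 2 * (N * A ^ 2 / K₁ + x * A) with ha
  set b : ℝ := M ^ 2 * ((1 + Real.log x) * (N * A ^ 2 / Z + x * A * √N + N * √N * A)) with hb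
  set c : ℝ := M ^ 2 * (N * A * (A / K₃ + √N)) with hc
  have ha0 : 0 ≤ a := by positivity
  have hb0 : 0 ≤ b := by positivity
  have hc0 : 0 ≤ c := by positivity
  -- the small determinants
  have hP1 : ∑ p ∈ ZD N ×ˢ ZD N with ¬ N * A < K₁ * (x * (dl p.1 p.2).natAbs), |WBN_T R A lam p.1 p.2| ≤
      C₁ * a := by
    have h4 : ∑ p ∈ ZD N ×ˢ ZD N with ¬ N * A < K₁ * (x * (dl p.1 p.2).natAbs),
        (#{w ∈ Bx R | |ac p.1 w| ≤ A} : ℝ) ≤ C₁ * (N * A ^ 2 / K₁ + x * A) := by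
      refine le_trans (le_of_eq ?_) hp1
      refine sum_congr ?_ fun _ _ => rfl
      refine filter_congr fun p _ => ?_
      exact not_lt
    calc ∑ p ∈ ZD N ×ˢ ZD N with ¬ N * A < K₁ * (x * (dl p.1 p.2).natAbs), |WBN_T R A lam p.1 p.2|
        ≤ ∑ p ∈ ZD N ×ˢ ZD N with ¬ N * A < K₁ * (x * (dl p.1 p.2).natAbs),
          M ^ 2 * (#{w ∈ Bx R | |ac p.1 w| ≤ A} : ℝ) :=
          sum_le_sum fun p _ => WBN_T_triv R A M lam hlam.1 _ _
      _ = M ^ 2 * ∑ p ∈ ZD N ×ˢ ZD N with ¬ N * A < K₁ * (x * (dl p.1 p.2).natAbs),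
          (#{w ∈ Bx R | |ac p.1 w| ≤ A} : ℝ) := by rw [mul_sum]
      _ ≤ M ^ 2 * (C₁ * (N * A ^ 2 / K₁ + x * A)) := mul_le_mul_of_nonneg_left h4 (sq_nonneg _)
      _ = C₁ * a := by rw [ha]; ring
  -- the other pairs
  have hP2 : ∑ p ∈ ZD N ×ˢ ZD N with N * A < K₁ * (x * (dl p.1 p.2).natAbs), |WBN_T R A lam p.1 p.2| ≤
      C₂ * b + C₃ * c + E := by
    set bad : (ℤ × ℤ) × (ℤ × ℤ) → ℝ := fun p => (#{w ∈ Bx R | w.1 % 2 = 1 ∧ (x : ℤ) < lc p.1 w ∧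
      lc p.1 w ≤ 2 * x ∧ |ac p.1 w| ≤ A ∧ |ac p.2 w| ≤ A ∧
      ∃ g : ℕ, g.Prime ∧ Z < g ∧ (g : ℤ) ∣ lc p.1 w ∧ (g : ℤ) ∣ lc p.2 w} : ℝ) with hbad
    set bd : (ℤ × ℤ) × (ℤ × ℤ) → ℝ := fun p => (#(bdN x R A K₃ p.1 p.2) : ℝ) with hbd
    have hbad0 : ∀ p, 0 ≤ bad p := fun p => Nat.cast_nonneg _
    have hbd0 : ∀ p, 0 ≤ bd p := fun p => Nat.cast_nonneg _
    have hpt : ∀ p ∈ (ZD N ×ˢ ZD N).filter fun p => N * A < K₁ * (x * (dl p.1 p.2).natAbs),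
        |WBN_T R A lam p.1 p.2| ≤ M ^ 2 * bad p +
          (if x * (dl p.1 p.2).natAbs ≤ N * A then M ^ 2 * bd p + Ee p else 0) := by
      intro p hp
      rw [mem_filter, mem_product] at hp
      have h4 := WBN_split x Z R A M lam hlam p.1 p.2 (WBN_ZDcop N _ hp.1.1)
      obtain ⟨h5, h6⟩ := hWPN om hom x Z N R A K₁ K₃ K₄ hx hZ hN hR hA hAx hK₁ hK₃ hK₄ hK hRx M lam hlam p.1 hp.1.1
        p.2 hp.1.2 hp.2
      have h10 : |WBN_T R A lam p.1 p.2| ≤ |Tc R A lam p.1 p.2| + M ^ 2 * bad p := h4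
      have h11 : |Tc R A lam p.1 p.2| ≤ if x * (dl p.1 p.2).natAbs ≤ N * A then M ^ 2 * bd p + Ee p else 0 := by
        split_ifs with h12
        · exact h6
        · rw [h5 (not_le.1 h12), abs_zero]
      linarith
    have hsumbad : ∑ p ∈ ZD N ×ˢ ZD N, bad p ≤
        C₂ * (1 + Real.log x) * (N * A ^ 2 / Z + x * A * √N + N * √N * A) := by
      have h4 := hp2
      rw [WBN_cardprod] at h4
      exact h4
    have hsumbd : ∑ p ∈ Pr x N A K₁, bd p ≤ C₃ * (N * A * (A / K₃ + √N)) := by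
      refine le_trans ?_ hp3
      unfold Pr
      exact sum_le_sum_of_subset_of_nonneg (filter_subset _ _) fun p _ _ => hbd0 p
    calc ∑ p ∈ ZD N ×ˢ ZD N with N * A < K₁ * (x * (dl p.1 p.2).natAbs), |WBN_T R A lam p.1 p.2|
        ≤ ∑ p ∈ ZD N ×ˢ ZD N with N * A < K₁ * (x * (dl p.1 p.2).natAbs),
          (M ^ 2 * bad p + (if x * (dl p.1 p.2).natAbs ≤ N * A then M ^ 2 * bd p + Ee p else 0)) := sum_le_sum hpt
      _ = ∑ p ∈ ZD N ×ˢ ZD N with N * A < K₁ * (x * (dl p.1 p.2).natAbs), M ^ 2 * bad p +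
          ∑ p ∈ Pr x N A K₁, (M ^ 2 * bd p + Ee p) := by
          rw [sum_add_distrib]
          congr 1
          unfold Pr
          rw [← sum_filter, filter_filter]
      _ ≤ ∑ p ∈ ZD N ×ˢ ZD N, M ^ 2 * bad p + ∑ p ∈ Pr x N A K₁, (M ^ 2 * bd p + Ee p) := by
          refine add_le_add ?_ le_rfl
          exact sum_le_sum_of_subset_of_nonneg (filter_subset _ _) fun p _ _ => mul_nonneg (sq_nonneg M) (hbad0 p)
      _ = M ^ 2 * ∑ p ∈ ZD N ×ˢ ZD N, bad p + M ^ 2 * ∑ p ∈ Pr x N A K₁, bd p + E := by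
          rw [sum_add_distrib, ← mul_sum, ← mul_sum, add_assoc]
      _ ≤ M ^ 2 * (C₂ * (1 + Real.log x) * (N * A ^ 2 / Z + x * A * √N + N * √N * A)) +
          M ^ 2 * (C₃ * (N * A * (A / K₃ + √N))) + E := by
          have e3 := mul_le_mul_of_nonneg_left hsumbad (sq_nonneg M)
          have e4 := mul_le_mul_of_nonneg_left hsumbd (sq_nonneg M)
          linarith
      _ = C₂ * b + C₃ * c + E := by
          rw [hb, hc]
          ring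
  have hsum : ∑ p ∈ ZD N ×ˢ ZD N, |WBN_T R A lam p.1 p.2| ≤ C₁ * a + (C₂ * b + C₃ * c + E) := by
    rw [← sum_filter_add_sum_filter_not (ZD N ×ˢ ZD N) (fun p => N * A < K₁ * (x * (dl p.1 p.2).natAbs))]
    linarith
  refine (WBN_WW N R A β lam Mβ hβ).trans ?_
  have hfin : C₁ * a + (C₂ * b + C₃ * c + E) ≤ (C₁ + C₂ + C₃ + 1) * (a + b + c + E) := by
    have p1 := mul_nonneg hC₁.le hb0
    have p2 := mul_nonneg hC₁.le hc0
    have p3 := mul_nonneg hC₁.le hE0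
    have p4 := mul_nonneg hC₂.le ha0
    have p5 := mul_nonneg hC₂.le hc0
    have p6 := mul_nonneg hC₂.le hE0
    have p7 := mul_nonneg hC₃.le ha0
    have p8 := mul_nonneg hC₃.le hb0
    have p9 := mul_nonneg hC₃.le hE0
    linarith
  calc Mβ ^ 2 * ∑ p ∈ ZD N ×ˢ ZD N, |WBN_T R A lam p.1 p.2|
      ≤ Mβ ^ 2 * ((C₁ + C₂ + C₃ + 1) * (a + b + c + E)) :=
        mul_le_mul_of_nonneg_left (hsum.trans hfin) (sq_nonneg _)
    _ = _ := by
        rw [ha, hb, hc]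
        ring

end Pool.Agent.FJ
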